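import Pool.Agent.Helper72.Flip.Sh.SCore
import Pool.Agent.Helper98.Flip.Blocks

/-!
# FLIP-S-MLIST, part 2: the pockets of the states of the macro phase
-/

set_option autoImplicit false

namespace Pool.Agent.Helper20.Flip.Sh

namespace Par

variable {P : Par}

theorem Coarse.step {J : ℕ} {f : ℕ → Bool} {st : St} (h : P.Coarse J f st) (hJ : 1 ≤ J)
    {B : List Edge} {bs₁ bs₂ : List (List Edge)} (hB : 2 ≤ B.length)
    (he : P.blks J f st = bs₁ ++ [B] ++ bs₂) :
    CStep (P.chain st) (bs₁.flatten ++ flipBlock B ++ bs₂.flatten) := by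
  have hfl := blks_flatten (P := P) (f := f) (st := st) (J := J) hJ h.hJ
  have hfl2 : (P.blks J f st).flatten = bs₁.flatten ++ B ++ bs₂.flatten := by
    rw [he]; simp
  refine ⟨bs₁.flatten, B, bs₂.flatten, by rw [← hfl, hfl2], ?_, rfl⟩
  rw [hullBlock_iff (bs := P.blks J f st) (by rw [hfl]; exact h.small) (h.good hJ)
    (by rw [List.pairwise_map]; exact h.blks_pairwise hJ) hfl2]
  exact ⟨hB, bs₁, bs₂, he, rfl, rfl⟩

theorem Coarse.stepV {J : ℕ} {f : ℕ → Bool} {st : St} (h : P.Coarse J f st) {j : ℕ} (hj : 1 ≤ j)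
    (hjJ : j + 2 ≤ J) (hf : f j = false) : CStep (P.chain st) (P.chain (P.stV st j)) := by
  obtain ⟨bs₁, bs₂, h1, h2⟩ := h.decompV hj hjJ hf
  rw [← h2]
  exact h.step (by omega) (by rw [vblock_length]) h1

theorem Coarse.stepF {J : ℕ} {f : ℕ → Bool} {st : St} (h : P.Coarse J f st) (hJ : 1 ≤ J) :
    CStep (P.chain st) (P.chain (P.stF J f st)) := by
  obtain ⟨bs₁, bs₂, h1, h2⟩ := h.decompF hJ
  rw [← h2]
  exact h.step hJ (mblock_length J f st) h1

theorem Coarse.cases {J : ℕ} {f : ℕ → Bool} {st : St} (h : P.Coarse J f st) (hJ : 1 ≤ J)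
    {c' : List Edge} (hc : CStep (P.chain st) c') :
    (∃ j, 1 ≤ j ∧ j + 2 ≤ J ∧ f j = false ∧ c' = P.chain (P.stV st j)) ∨
      c' = P.chain (P.stF J f st) := by
  obtain ⟨X, B, Y, hX, hB, rfl⟩ := hc
  have hfl := blks_flatten (P := P) (f := f) (st := st) (J := J) hJ h.hJ
  rw [hullBlock_iff (bs := P.blks J f st) (by rw [hfl]; exact h.small) (h.good hJ)
    (by rw [List.pairwise_map]; exact h.blks_pairwise hJ) (hfl.trans hX)] at hB
  obtain ⟨hlen, bs₁, bs₂, he, rfl, rfl⟩ := hB
  have hmem : B ∈ P.blks J f st := by rw [he]; simp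
  have hnd := h.blks_nodup hJ
  unfold blks at hmem
  simp only [List.mem_append, List.mem_map, List.mem_flatMap, List.mem_range] at hmem
  rcases hmem with ⟨e, -, rfl⟩ | ⟨j, hj, hb⟩
  · simp at hlen
  · unfold blk at hb
    split_ifs at hb with h1 h2 h3 h4 h5 h6
    all_goals simp only [List.mem_cons, List.not_mem_nil, or_false] at hb
    · rw [hb] at hlen; simp at hlen
    · rcases hb with rfl | rfl <;> simp at hlen
    · left
      have hf : f j = false := by simpa using h3
      obtain ⟨cs₁, cs₂, e1, e2⟩ := h.decompV (j := j) (by omega) (by omega) hf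
      rw [hb] at he
      obtain ⟨rfl, rfl⟩ := nodup_split hnd he e1
      exact ⟨j, by omega, by omega, hf, by rw [hb, e2]⟩
    · right
      obtain ⟨cs₁, cs₂, e1, e2⟩ := h.decompF hJ
      rw [hb] at he
      obtain ⟨rfl, rfl⟩ := nodup_split hnd he e1
      rw [hb, e2]
    · rw [hb] at hlen; simp at hlen
    · rcases hb with rfl | rfl <;> simp at hlen

end Par

end Pool.Agent.Helper20.Flip.Sh
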