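import Pool.Agent.Helper72.Flip.Sh.SNum
import Pool.Agent.Helper85.Flip.Dir

/-!
# FLIP-S-MLIST, part 1: the blocks of the states of the macro phase (lists and directions)
-/

set_option autoImplicit false

namespace Pool.Agent.Helper20.Flip.Sh

namespace Par

variable {P : Par}

/-! ### velocities of the states -/

theorem Coarse.tb {J : ℕ} {f : ℕ → Bool} {st : St} (h : P.Coarse J f st) {j : ℕ} (h1 : 1 ≤ j)
    (h2 : j ≤ P.M) : tnom J f j - 1 / 64 ≤ st.vt j ∧ st.vt j ≤ tnom J f j + 1 / 64 := by
  have := abs_le.1 (h.ht j h1 h2); constructor <;> linarith [this.1, this.2]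

theorem tnom_abs (J : ℕ) (f : ℕ → Bool) (j : ℕ) : |tnom J f j| ≤ 3 / 2 * R j := by
  have := R_pos j
  unfold tnom
  split_ifs <;> rw [abs_le] <;> constructor <;> linarith

theorem Coarse.vt_abs {J : ℕ} {f : ℕ → Bool} {st : St} (h : P.Coarse J f st) {j : ℕ} (h1 : 1 ≤ j)
    (h2 : j ≤ P.M) : |st.vt j| ≤ 2 * R j := by
  have h3 := abs_le.1 (tnom_abs J f j)
  have := R_pos j
  have := h.tb h1 h2
  rw [abs_le]; constructor <;> linarith [this.1, this.2, h3.1, h3.2]

theorem Coarse.vw_abs {J : ℕ} {f : ℕ → Bool} {st : St} (h : P.Coarse J f st) {j : ℕ}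
    (h2 : j ≤ P.M) : |st.vw j| ≤ 2 * R j := by
  have hR := R_pos j
  rcases lt_trichotomy j J with hj | hj | hj
  · have := abs_le.1 (h.hw1 j hj)
    rw [abs_le]; constructor <;> linarith [this.1, this.2]
  · subst hj
    have := abs_le.1 h.hw2
    rw [abs_le]; constructor <;> linarith [this.1, this.2]
  · have := abs_le.1 (h.hw3 j hj h2)
    have h4 := R_mono (i := j - 1) (j := j) (by omega)
    have h5 := R_pos (j - 1)
    rw [abs_le]; constructor <;> linarith [this.1, this.2]

/-- length and angle bounds for one edge -/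
theorem small_angle {v : ℝ} {j : ℕ} (hj : j ≤ P.M) (hv : |v| ≤ 2 * R j) :
    |P.τ * v| ≤ P.τ * (2 * R P.M) := by
  rw [abs_mul, abs_of_pos P.τ_pos']
  apply mul_le_mul_of_nonneg_left _ P.τ_pos'.le
  have := R_mono hj
  linarith

theorem angle_small : P.τ * (2 * R P.M) ≤ 1 / 100 := by
  have := P.τ_R_M
  have := R_pos P.M
  have := P.τ_pos'
  nlinarith

theorem Coarse.mem_chain {J : ℕ} {f : ℕ → Bool} {st : St} (h : P.Coarse J f st) {e : Edge}
    (he : e ∈ P.chain st) : 0 < e.1 ∧ e.1 ≤ 2 ∧ |e.2| ≤ P.τ * (2 * R P.M) := by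
  unfold chain at he
  simp only [List.mem_append, List.mem_flatMap, List.mem_range] at he
  have hR0 := R_pos P.M
  rcases he with he | ⟨j, hj, he⟩
  · have := P.pre_mem he
    refine ⟨this.1, this.2.1, this.2.2.trans ?_⟩
    exact mul_le_mul_of_nonneg_left (by linarith) P.τ_pos'.le
  · have hjM : j ≤ P.M := by omega
    unfold seg at he
    rcases List.mem_cons.1 he with rfl | he
    · unfold w
      refine ⟨by linarith [(P.Lw_len hjM).1], by linarith [(P.Lw_len hjM).2], ?_⟩
      exact small_angle hjM (h.vw_abs hjM)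
    · unfold tl at he
      split_ifs at he with h0
      · simp at he
      · rw [List.mem_singleton] at he
        subst he
        have hj1 : 1 ≤ j := by omega
        unfold t
        refine ⟨(P.Lt_len hj1 hjM).1, le_trans (P.Lt_len hj1 hjM).2 (by norm_num), ?_⟩
        exact small_angle hjM (h.vt_abs hj1 hjM)

theorem seg_length (st : St) (j : ℕ) : (P.seg st j).length = if j = 0 then 1 else 2 := by
  unfold seg tl
  split_ifs <;> simp

theorem chain_length (st : St) : (P.chain st).length = P.N := by
  have key : ∀ m : ℕ, ((List.range (m + 1)).flatMap (P.seg st)).length = 2 * m + 1 := by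
    intro m
    induction m with
    | zero => simp [seg_length]
    | succ m ih =>
      rw [List.range_succ, List.flatMap_append, List.length_append, ih]
      simp [seg_length]
      omega
  unfold chain
  rw [List.length_append, P.pre_length, key]
  unfold M N
  omega

theorem Coarse.ok {J : ℕ} {f : ℕ → Bool} {st : St} (h : P.Coarse J f st) :
    Ok P.N (P.chain st) := by
  refine ⟨chain_length st, by unfold N; omega, fun e he => ?_⟩
  have := h.mem_chain he
  exact ⟨this.1, this.2.1, this.2.2.trans angle_small⟩

theorem Coarse.small {J : ℕ} {f : ℕ → Bool} {st : St} (h : P.Coarse J f st) :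
    Small (P.chain st) := fun e he => ⟨(h.ok.2.2 e he).1, (h.ok.2.2 e he).2.2⟩

/-! ### the blocks -/

variable (P) in
/-- the blocks contributed by the index `j` -/
noncomputable def blk (J : ℕ) (f : ℕ → Bool) (st : St) (j : ℕ) : List (List Edge) :=
  if j + 1 < J then
    (if j = 0 then [[P.w st 0]] else if f j then [[P.w st j], [P.t st j]] else [P.vblock st j])
  else if j + 1 = J then [P.mblock J f st]
  else if j = J then (if f J then [] else [[P.t st J]])
  else [[P.w st j], [P.t st j]]

variable (P) in
noncomputable def blks (J : ℕ) (f : ℕ → Bool) (st : St) : List (List Edge) :=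
  P.pre.map (fun e => [e]) ++ (List.range (P.M + 1)).flatMap (P.blk J f st)

theorem flatten_single {α : Type} (l : List α) : (l.map fun e => [e]).flatten = l := by
  induction l with
  | nil => rfl
  | cons a l ih => simp [ih]

/-- changing a function at two consecutive places -/
theorem flatMap_pair {α : Type} (F G : ℕ → List α) (K m : ℕ) (hm : K + 1 < m)
    (h : ∀ j, j < m → j ≠ K → j ≠ K + 1 → F j = G j) (h2 : F K ++ F (K + 1) = G K ++ G (K + 1)) :
    (List.range m).flatMap F = (List.range m).flatMap G := by
  induction m with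
  | zero => omega
  | succ m ih =>
    rw [List.range_succ, List.flatMap_append, List.flatMap_append]
    rcases Nat.lt_or_ge (K + 1) m with hlt | hge
    · rw [ih hlt fun j hj => h j (by omega)]
      simp only [List.flatMap_cons, List.flatMap_nil, List.append_nil]
      rw [h m (by omega) (by omega) (by omega)]
    · have : m = K + 1 := by omega
      subst this
      rw [List.range_succ, List.flatMap_append, List.flatMap_append]
      have e : (List.range K).flatMap F = (List.range K).flatMap G := by
        apply List.flatMap_congr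
        intro j hj
        have := List.mem_range.1 hj
        exact h j (by omega) (by omega) (by omega)
      rw [e]
      simp only [List.flatMap_cons, List.flatMap_nil, List.append_nil, List.append_assoc]
      rw [h2]

theorem flatten_flatMap' {α β : Type} (l : List α) (F : α → List (List β)) :
    (l.flatMap F).flatten = l.flatMap fun a => (F a).flatten := by
  induction l with
  | nil => rfl
  | cons a l ih => simp [ih]

theorem blk_flatten_of_ne {J : ℕ} {f : ℕ → Bool} {st : St} {j : ℕ} (h1 : j + 1 ≠ J) (h2 : j ≠ J) :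
    (P.blk J f st j).flatten = P.seg st j := by
  unfold blk seg tl vblock
  split_ifs <;> (simp_all; try omega)

theorem blk_flatten_pair {J : ℕ} {f : ℕ → Bool} {st : St} (hJ : 1 ≤ J) :
    (P.blk J f st (J - 1)).flatten ++ (P.blk J f st J).flatten =
      P.seg st (J - 1) ++ P.seg st J := by
  unfold blk
  rw [if_neg (by omega), if_pos (by omega), if_neg (by omega), if_neg (by omega), if_pos rfl]
  unfold mblock seg tl
  have hJ0 : J ≠ 0 := by omega
  cases hfJ : f J <;> simp [hJ0]

theorem flatMap_blk {J : ℕ} {f : ℕ → Bool} {st : St} (hJ : 1 ≤ J) {m : ℕ} (hm : J < m) :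
    ((List.range m).flatMap (P.blk J f st)).flatten = (List.range m).flatMap (P.seg st) := by
  rw [flatten_flatMap']
  apply flatMap_pair _ _ (J - 1) m (by omega)
  · intro j _ h1 h2
    exact blk_flatten_of_ne (by omega) (by omega)
  · have := blk_flatten_pair (P := P) (f := f) (st := st) hJ
    rwa [show J - 1 + 1 = J by omega]

theorem blks_flatten {J : ℕ} {f : ℕ → Bool} {st : St} (hJ : 1 ≤ J) (hJM : J ≤ P.M) :
    (P.blks J f st).flatten = P.chain st := by
  unfold blks chain
  rw [List.flatten_append, flatten_single, flatMap_blk hJ (by omega)]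

/-! ### directions of the blocks -/

theorem Coarse.seg_mem {J : ℕ} {f : ℕ → Bool} {st : St} (h : P.Coarse J f st) {j : ℕ}
    (hj : j ≤ P.M) {e : Edge} (he : e ∈ P.seg st j) : 0 < e.1 ∧ |e.2| ≤ P.τ * (2 * R P.M) := by
  have : e ∈ P.chain st := by
    unfold chain
    simp only [List.mem_append, List.mem_flatMap, List.mem_range]
    exact Or.inr ⟨j, by omega, he⟩
  exact ⟨(h.mem_chain this).1, (h.mem_chain this).2.2⟩

theorem mem_mblock {J : ℕ} {f : ℕ → Bool} {st : St} {e : Edge} (he : e ∈ P.mblock J f st) :
    e ∈ P.seg st (J - 1) ∨ e ∈ P.seg st J := by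
  unfold mblock at he
  rcases List.mem_append.1 he with he | he
  · rcases List.mem_append.1 he with he | he
    · exact Or.inl he
    · rw [List.mem_singleton] at he
      exact Or.inr (by rw [he]; exact List.mem_cons_self)
  · right
    split_ifs at he with hf
    · exact List.mem_cons_of_mem _ he
    · simp at he

theorem Coarse.mblock_mem {J : ℕ} {f : ℕ → Bool} {st : St} (h : P.Coarse J f st)
    {e : Edge} (he : e ∈ P.mblock J f st) : 0 < e.1 ∧ |e.2| ≤ P.τ * (2 * R P.M) := by
  rcases mem_mblock he with he | he
  · exact h.seg_mem (by have := h.hJ; omega) he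
  · exact h.seg_mem h.hJ he

theorem mblock_ne (J : ℕ) (f : ℕ → Bool) (st : St) : P.mblock J f st ≠ [] := by
  unfold mblock seg; simp

theorem Coarse.mblock_small {J : ℕ} {f : ℕ → Bool} {st : St} (h : P.Coarse J f st) :
    Small (P.mblock J f st) := fun _ he =>
  ⟨(h.mblock_mem he).1, (h.mblock_mem he).2.trans angle_small⟩

theorem mean_bounds {A B a b x y va vb r δ : ℝ} (hr : 2 ≤ r) (hA : 1 ≤ A) (hA' : A ≤ 101 / 100)
    (hB : 1 ≤ B) (hB' : B ≤ 101 / 100) (ha : 0 ≤ a) (ha' : a ≤ δ) (hb : 0 ≤ b) (hb' : b ≤ δ)
    (hδ : δ ≤ 1 / 10 ^ 6) (hx : |x - r| ≤ 1 / 64) (hy : |y| ≤ 1 / 32) (hva : |va| ≤ 2 * r)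
    (hvb : |vb| ≤ 8 * r) :
    (12 / 25 * r + 1 / 1000) * (A + a + B + b) ≤ A * x + a * va + B * y + b * vb ∧
    A * x + a * va + B * y + b * vb ≤ (53 / 100 * r - 1 / 1000) * (A + a + B + b) := by
  have hx := abs_le.1 hx
  have hy := abs_le.1 hy
  have h1 : |a * va| ≤ 1 / 10 ^ 6 * (2 * r) := by
    rw [abs_mul, abs_of_nonneg ha]
    exact mul_le_mul (by linarith) hva (abs_nonneg _) (by norm_num)
  have h2 : |b * vb| ≤ 1 / 10 ^ 6 * (8 * r) := by
    rw [abs_mul, abs_of_nonneg hb]
    exact mul_le_mul (by linarith) hvb (abs_nonneg _) (by norm_num)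
  have h1 := abs_le.1 h1
  have h2 := abs_le.1 h2
  have h3 : |B * y| ≤ 101 / 100 * (1 / 32) := by
    rw [abs_mul, abs_of_nonneg (by linarith)]
    exact mul_le_mul hB' (abs_le.2 hy) (abs_nonneg _) (by norm_num)
  have h3 := abs_le.1 h3
  have h4 : 1 * (r - 1 / 64) ≤ A * x :=
    mul_le_mul hA (by linarith [hx.1]) (by linarith) (by linarith)
  have h5 : A * x ≤ 101 / 100 * (r + 1 / 64) :=
    mul_le_mul hA' (by linarith [hx.2]) (by linarith [hx.1]) (by norm_num)
  have h6 : (12 / 25 * r + 1 / 1000) * (A + a + B + b) ≤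
      (12 / 25 * r + 1 / 1000) * (202 / 100 + 2 * (1 / 10 ^ 6)) :=
    mul_le_mul_of_nonneg_left (by linarith) (by linarith)
  have h7 : (53 / 100 * r - 1 / 1000) * 2 ≤ (53 / 100 * r - 1 / 1000) * (A + a + B + b) :=
    mul_le_mul_of_nonneg_left (by linarith) (by linarith)
  constructor
  · refine h6.trans ?_
    linarith [h1.1, h2.1, h3.1]
  · refine le_trans ?_ h7
    linarith [h1.2, h2.2, h3.2]

theorem Coarse.mblock_sums {J : ℕ} {f : ℕ → Bool} {st : St} (h : P.Coarse J f st) (hJ : 1 ≤ J) :
    ∃ a va b vb : ℝ, 0 ≤ a ∧ a ≤ 1 / 2 ^ 49 ∧ 0 ≤ b ∧ b ≤ 1 / 2 ^ 49 ∧ |va| ≤ 2 * R (J - 1) ∧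
      |vb| ≤ 8 * R (J - 1) ∧
      ((P.mblock J f st).map fun e => e.1 * e.2).sum =
        P.τ * (P.Lw (J - 1) * st.vw (J - 1) + a * va + P.Lw J * st.vw J + b * vb) ∧
      ((P.mblock J f st).map fun e => e.1).sum = P.Lw (J - 1) + a + P.Lw J + b := by
  have hJM := h.hJ
  have hR := R_pos (J - 1)
  have hRJ : R J = 4 * R (J - 1) := by
    rw [← R_succ, show J - 1 + 1 = J by omega]
  have hJ0 : J ≠ 0 := by omega
  obtain ⟨b, vb, hb0, hb1, hvb, e1, e2⟩ : ∃ b vb : ℝ, 0 ≤ b ∧ b ≤ 1 / 2 ^ 49 ∧
      |vb| ≤ 8 * R (J - 1) ∧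
      ((if f J then P.tl st J else []).map fun e => e.1 * e.2).sum = P.τ * (b * vb) ∧
      ((if f J then P.tl st J else []).map fun e => e.1).sum = b := by
    cases hf : f J
    · exact ⟨0, 0, le_rfl, by positivity, by rw [abs_zero]; linarith, by simp, by simp⟩
    · refine ⟨P.Lt J, st.vt J, (P.Lt_len hJ hJM).1.le, (P.Lt_len hJ hJM).2, ?_, ?_, ?_⟩
      · have := h.vt_abs hJ hJM; linarith
      · simp [tl, hJ0, t]; ring
      · simp [tl, hJ0, t]
  obtain ⟨a, va, ha0, ha1, hva, e3, e4⟩ : ∃ a va : ℝ, 0 ≤ a ∧ a ≤ 1 / 2 ^ 49 ∧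
      |va| ≤ 2 * R (J - 1) ∧
      ((P.tl st (J - 1)).map fun e => e.1 * e.2).sum = P.τ * (a * va) ∧
      ((P.tl st (J - 1)).map fun e => e.1).sum = a := by
    by_cases h0 : J - 1 = 0
    · exact ⟨0, 0, le_rfl, by positivity, by rw [abs_zero]; linarith, by simp [tl, h0],
        by simp [tl, h0]⟩
    · have h1 : 1 ≤ J - 1 := by omega
      have h2 : J - 1 ≤ P.M := by omega
      refine ⟨P.Lt (J - 1), st.vt (J - 1), (P.Lt_len h1 h2).1.le, (P.Lt_len h1 h2).2,
        h.vt_abs h1 h2, ?_, ?_⟩
      · simp [tl, h0, t]; ring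
      · simp [tl, h0, t]
  refine ⟨a, va, b, vb, ha0, ha1, hb0, hb1, hva, hvb, ?_, ?_⟩
  · unfold mblock
    simp only [seg, List.map_append, List.sum_append, List.map_cons, List.sum_cons, List.map_nil,
      List.sum_nil, e1, e3, w]
    ring
  · unfold mblock
    simp only [seg, List.map_append, List.sum_append, List.map_cons, List.sum_cons, List.map_nil,
      List.sum_nil, e2, e4, w]
    ring

theorem Coarse.dir_mblock {J : ℕ} {f : ℕ → Bool} {st : St} (h : P.Coarse J f st) (hJ : 1 ≤ J) :
    P.τ * (12 / 25 * R (J - 1)) ≤ dir (P.mblock J f st) ∧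
    dir (P.mblock J f st) ≤ P.τ * (53 / 100 * R (J - 1)) := by
  have hJM := h.hJ
  obtain ⟨a, va, b, vb, ha0, ha1, hb0, hb1, hva, hvb, e1, e2⟩ := h.mblock_sums hJ
  have hA := P.Lw_len (j := J - 1) (by omega)
  have hB := P.Lw_len hJM
  have hm := mean_bounds (R_pos (J - 1)) hA.1 hA.2 hB.1 hB.2 ha0 ha1 hb0 hb1 (by norm_num)
    (h.hw1 (J - 1) (by omega)) h.hw2 hva hvb
  have hd := dir_approx h.mblock_small (mblock_ne J f st) (t := P.τ * (2 * R P.M))
    angle_small (fun e he => (h.mblock_mem he).2)
  rw [e1, e2] at hd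
  have hd := abs_le.1 (hd.trans P.τ_cube)
  have hS : 0 < P.Lw (J - 1) + a + P.Lw J + b := by linarith [hA.1, hB.1]
  have hτ := P.τ_pos'
  set W := P.Lw (J - 1) * st.vw (J - 1) + a * va + P.Lw J * st.vw J + b * vb with hW
  set S := P.Lw (J - 1) + a + P.Lw J + b with hSdef
  have h1 : P.τ * (12 / 25 * R (J - 1) + 1 / 1000) ≤ P.τ * W / S := by
    rw [le_div_iff₀ hS, mul_assoc]
    exact mul_le_mul_of_nonneg_left hm.1 hτ.le
  have h2 : P.τ * W / S ≤ P.τ * (53 / 100 * R (J - 1) - 1 / 1000) := by
    rw [div_le_iff₀ hS, mul_assoc]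
    exact mul_le_mul_of_nonneg_left hm.2 hτ.le
  have h3 : P.τ * (1 / 2 ^ 50) ≤ P.τ * (1 / 1000) :=
    mul_le_mul_of_nonneg_left (by norm_num) hτ.le
  constructor <;> nlinarith [hd.1, hd.2]

/-- lower bound for the directions of the blocks number `j` -/
noncomputable def lo (J j : ℕ) : ℝ :=
  if j < J then 12 / 25 * R j else if j = J then 49 / 100 * R j else 21 / 100 * R j

/-- upper bound for the directions of the blocks number `j` -/
noncomputable def hi (J j : ℕ) : ℝ := if j + 1 < J then 8 / 5 * R j else 4 / 5 * R j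

theorem hi_lt_lo {J i j : ℕ} (h : i < j) : hi J i < lo J j := by
  have hi0 := R_pos i
  have hj0 := R_pos j
  have hij := R_lt h
  unfold hi lo
  by_cases h1 : j < J
  · rw [if_pos h1]; split_ifs <;> linarith
  · rw [if_neg h1]
    by_cases h2 : j = J
    · rw [if_pos h2]
      split_ifs with h3
      · have := R_lt (i := i) (j := j - 1) (by omega)
        have := R_lt (i := j - 1) (j := j) (by omega)
        linarith
      · linarith
    · rw [if_neg h2]
      split_ifs with h3
      · have := R_lt (i := i) (j := j - 1) (by omega)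
        have := R_lt (i := j - 1) (j := j) (by omega)
        linarith
      · linarith

theorem Coarse.w_small {J : ℕ} {f : ℕ → Bool} {st : St} (h : P.Coarse J f st) {j : ℕ}
    (hj : j ≤ P.M) : Small [P.w st j] := by
  intro e he
  rw [List.mem_singleton] at he
  have := h.seg_mem hj (e := e) (by rw [he]; exact List.mem_cons_self)
  exact ⟨this.1, this.2.trans angle_small⟩

theorem Coarse.t_small {J : ℕ} {f : ℕ → Bool} {st : St} (h : P.Coarse J f st) {j : ℕ}
    (hj1 : 1 ≤ j) (hj : j ≤ P.M) : Small [P.t st j] := by
  intro e he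
  rw [List.mem_singleton] at he
  have := h.seg_mem hj (e := e) (by
    rw [he]; unfold seg tl; rw [if_neg (by omega)]; simp)
  exact ⟨this.1, this.2.trans angle_small⟩

theorem Coarse.dir_w {J : ℕ} {f : ℕ → Bool} {st : St} (h : P.Coarse J f st) {j : ℕ}
    (hj : j ≤ P.M) : dir [P.w st j] = P.τ * st.vw j := dir_singleton (h.w_small hj)

theorem Coarse.dir_t {J : ℕ} {f : ℕ → Bool} {st : St} (h : P.Coarse J f st) {j : ℕ}
    (hj1 : 1 ≤ j) (hj : j ≤ P.M) : dir [P.t st j] = P.τ * st.vt j :=
  dir_singleton (h.t_small hj1 hj)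

theorem Coarse.vblock_small {J : ℕ} {f : ℕ → Bool} {st : St} (h : P.Coarse J f st) {j : ℕ}
    (hj1 : 1 ≤ j) (hj : j ≤ P.M) : Small (P.vblock st j) := by
  intro e he
  unfold vblock at he
  rcases List.mem_cons.1 he with he | he
  · exact h.w_small hj e (by rw [he]; simp)
  · exact h.t_small hj1 hj e he

theorem Coarse.vblock_dir {J : ℕ} {f : ℕ → Bool} {st : St} (h : P.Coarse J f st) {j : ℕ}
    (hj1 : 1 ≤ j) (hj : j < J) (hf : f j = false) :
    P.τ * (R j / 2 - 1 / 64) ≤ dir (P.vblock st j) ∧
      dir (P.vblock st j) ≤ P.τ * (R j + 1 / 64) := by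
  have hJM := h.hJ
  have hR := R_pos j
  have hτ := P.τ_pos'
  have hw := abs_le.1 (h.hw1 j hj)
  have ht := abs_le.1 (h.ht j hj1 (by omega))
  have htn : tnom J f j = R j / 2 := by unfold tnom; simp [hf]
  rw [htn] at ht
  apply dir_mem (h.vblock_small hj1 (by omega)) (by unfold vblock; simp)
  · intro e he
    unfold vblock w t at he
    simp only [List.mem_cons, List.not_mem_nil, or_false] at he
    rcases he with rfl | rfl
    · exact mul_le_mul_of_nonneg_left (by linarith [hw.1]) hτ.le
    · exact mul_le_mul_of_nonneg_left (by linarith [ht.1]) hτ.le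
  · intro e he
    unfold vblock w t at he
    simp only [List.mem_cons, List.not_mem_nil, or_false] at he
    rcases he with rfl | rfl
    · exact mul_le_mul_of_nonneg_left (by linarith [hw.2]) hτ.le
    · exact mul_le_mul_of_nonneg_left (by linarith [ht.2]) hτ.le

/-- the directions of the blocks number `j` -/
theorem Coarse.blk_dir {J : ℕ} {f : ℕ → Bool} {st : St} (h : P.Coarse J f st) (hJ : 1 ≤ J)
    {j : ℕ} (hj : j ≤ P.M) : ∀ b ∈ P.blk J f st j, P.τ * lo J j ≤ dir b ∧ dir b ≤ P.τ * hi J j := by
  have hJM := h.hJ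
  have hR := R_pos j
  have hτ := P.τ_pos'
  have key : ∀ {x y z : ℝ}, x ≤ y → y ≤ z → P.τ * x ≤ P.τ * y ∧ P.τ * y ≤ P.τ * z :=
    fun h1 h2 => ⟨mul_le_mul_of_nonneg_left h1 hτ.le, mul_le_mul_of_nonneg_left h2 hτ.le⟩
  intro b hb
  unfold blk at hb
  split_ifs at hb with h1 h2 h3 h4 h5 h6
  · -- j = 0
    rw [List.mem_singleton] at hb
    subst hb
    subst h2
    rw [h.dir_w (Nat.zero_le _)]
    have hw := abs_le.1 (h.hw1 0 (by omega))
    unfold lo hi
    rw [if_pos (by omega), if_pos h1]
    exact key (by linarith [hw.1]) (by linarith [hw.2])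
  · have hw := abs_le.1 (h.hw1 j (by omega))
    have ht := abs_le.1 (h.ht j (by omega) hj)
    have htn : tnom J f j = 3 / 2 * R j := by
      unfold tnom; rw [if_pos h3, if_pos (by omega)]
    rw [htn] at ht
    unfold lo hi
    rw [if_pos (by omega), if_pos h1]
    simp only [List.mem_cons, List.not_mem_nil, or_false] at hb
    rcases hb with rfl | rfl
    · rw [h.dir_w hj]
      exact key (by linarith [hw.1]) (by linarith [hw.2])
    · rw [h.dir_t (by omega) hj]
      exact key (by linarith [ht.1]) (by linarith [ht.2])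
  · rw [List.mem_singleton] at hb
    subst hb
    have hf : f j = false := by simpa using h3
    have hd := h.vblock_dir (j := j) (by omega) (by omega) hf
    unfold lo hi
    rw [if_pos (by omega), if_pos h1]
    refine ⟨le_trans ?_ hd.1, hd.2.trans ?_⟩
    · exact mul_le_mul_of_nonneg_left (by linarith) hτ.le
    · exact mul_le_mul_of_nonneg_left (by linarith) hτ.le
  · rw [List.mem_singleton] at hb
    subst hb
    have hd := h.dir_mblock hJ
    rw [show J - 1 = j by omega] at hd
    unfold lo hi
    rw [if_pos (by omega), if_neg h1]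
    refine ⟨hd.1, hd.2.trans ?_⟩
    exact mul_le_mul_of_nonneg_left (by linarith) hτ.le
  · simp at hb
  · rw [List.mem_singleton] at hb
    subst hb
    subst h5
    have hf : f j = false := by simpa using h6
    have ht := abs_le.1 (h.ht j hJ hj)
    have htn : tnom j f j = R j / 2 := by unfold tnom; simp [hf]
    rw [htn] at ht
    rw [h.dir_t hJ hj]
    unfold lo hi
    rw [if_neg (lt_irrefl _), if_pos rfl, if_neg h1]
    exact key (by linarith [ht.1]) (by linarith [ht.2])
  · have hw := abs_le.1 (h.hw3 j (by omega) hj)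
    have ht := abs_le.1 (h.ht j (by omega) hj)
    have hRj : R j = 4 * R (j - 1) := by
      rw [← R_succ, show j - 1 + 1 = j by omega]
    unfold lo hi
    rw [if_neg (by omega), if_neg h5, if_neg h1]
    simp only [List.mem_cons, List.not_mem_nil, or_false] at hb
    rcases hb with rfl | rfl
    · rw [h.dir_w hj]
      exact key (by linarith [hw.1]) (by linarith [hw.2])
    · rw [h.dir_t (by omega) hj]
      have htn : R j / 2 ≤ tnom J f j ∧ tnom J f j ≤ 3 / 4 * R j := by
        unfold tnom
        rw [if_neg (by omega : ¬ j < J), if_neg h5]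
        split_ifs <;> constructor <;> linarith
      exact key (by linarith [ht.1, htn.1]) (by linarith [ht.2, htn.2])

/-- the directions of the blocks number `j` increase -/
theorem Coarse.blk_pairwise {J : ℕ} {f : ℕ → Bool} {st : St} (h : P.Coarse J f st)
    {j : ℕ} (hj : j ≤ P.M) : (P.blk J f st j).Pairwise fun b b' => dir b < dir b' := by
  have hJM := h.hJ
  have hR := R_pos j
  have hτ := P.τ_pos'
  unfold blk
  split_ifs with h1 h2 h3 h4 h5 h6
  · simp
  · have hw := abs_le.1 (h.hw1 j (by omega))
    have ht := abs_le.1 (h.ht j (by omega) hj)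
    have htn : tnom J f j = 3 / 2 * R j := by
      unfold tnom; rw [if_pos h3, if_pos (by omega)]
    rw [htn] at ht
    simp only [List.pairwise_cons, List.mem_singleton, forall_eq, List.not_mem_nil,
      false_imp_iff, implies_true, List.Pairwise.nil, and_true]
    rw [h.dir_w hj, h.dir_t (by omega) hj]
    exact mul_lt_mul_of_pos_left (by linarith [hw.2, ht.1]) hτ
  · simp
  · simp
  · simp
  · simp
  · have hw := abs_le.1 (h.hw3 j (by omega) hj)
    have ht := abs_le.1 (h.ht j (by omega) hj)
    have hRj : R j = 4 * R (j - 1) := by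
      rw [← R_succ, show j - 1 + 1 = j by omega]
    have htn : R j / 2 ≤ tnom J f j := by
      unfold tnom
      rw [if_neg (by omega : ¬ j < J), if_neg h5]
      split_ifs <;> linarith
    simp only [List.pairwise_cons, List.mem_singleton, forall_eq, List.not_mem_nil,
      false_imp_iff, implies_true, List.Pairwise.nil, and_true]
    rw [h.dir_w hj, h.dir_t (by omega) hj]
    exact mul_lt_mul_of_pos_left (by linarith [hw.2, ht.1]) hτ

theorem pre_small {e : Edge} (he : e ∈ P.pre) : Small [e] := by
  intro e' he'
  rw [List.mem_singleton] at he'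
  rw [he']
  have h1 := P.pre_mem he
  refine ⟨h1.1, h1.2.2.trans ?_⟩
  have := P.τ_small
  have := P.τ_pos'
  nlinarith

theorem dir_pre {e : Edge} (he : e ∈ P.pre) : dir [e] = e.2 := dir_singleton (pre_small he)

theorem Coarse.blks_pairwise {J : ℕ} {f : ℕ → Bool} {st : St} (h : P.Coarse J f st)
    (hJ : 1 ≤ J) : (P.blks J f st).Pairwise fun b b' => dir b < dir b' := by
  have hτ := P.τ_pos'
  have hrest : ∀ b ∈ (List.range (P.M + 1)).flatMap (P.blk J f st), P.τ * (3 / 4) ≤ dir b := by
    intro b hb
    obtain ⟨j, hj, hb⟩ := List.mem_flatMap.1 hb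
    have hj := List.mem_range.1 hj
    refine le_trans ?_ (h.blk_dir hJ (by omega) b hb).1
    apply mul_le_mul_of_nonneg_left _ hτ.le
    unfold lo
    have hR := R_pos j
    split_ifs with h1 h2
    · linarith
    · linarith
    · have := R_eight (j := j) (by omega)
      linarith
  unfold blks
  rw [List.pairwise_append]
  refine ⟨?_, ?_, ?_⟩
  · rw [List.pairwise_map]
    refine P.pre_pairwise.imp_of_mem ?_
    intro a b ha hb hab
    rw [dir_pre ha, dir_pre hb]
    exact hab
  rotate_left
  · intro a ha b hb
    obtain ⟨e, he, rfl⟩ := List.mem_map.1 ha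
    rw [dir_pre he]
    refine lt_of_lt_of_le ?_ (hrest b hb)
    refine lt_of_le_of_lt (le_of_abs_le (P.pre_mem he).2.2) ?_
    exact mul_lt_mul_of_pos_left (by norm_num) hτ
  · rw [List.pairwise_flatMap]
    refine ⟨fun j hj => h.blk_pairwise (by have := List.mem_range.1 hj; omega), ?_⟩
    have : (List.range (P.M + 1)).Pairwise fun a b => a < b ∧ b < P.M + 1 := by
      have h1 := List.pairwise_lt_range (n := P.M + 1)
      refine h1.imp_of_mem ?_
      intro a b _ hb hab
      exact ⟨hab, List.mem_range.1 hb⟩
    refine this.imp ?_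
    rintro i j ⟨hij, hj⟩ x hx y hy
    have h1 := (h.blk_dir hJ (by omega) x hx).2
    have h2 := (h.blk_dir hJ (by omega) y hy).1
    have h3 := mul_lt_mul_of_pos_left (hi_lt_lo (J := J) hij) hτ
    linarith

theorem Coarse.blks_nodup {J : ℕ} {f : ℕ → Bool} {st : St} (h : P.Coarse J f st)
    (hJ : 1 ≤ J) : (P.blks J f st).Nodup :=
  (h.blks_pairwise hJ).imp fun hlt heq => by rw [heq] at hlt; exact lt_irrefl _ hlt

/-! ### the blocks are good -/

theorem goodBlock_single (e : Edge) : GoodBlock [e] := by
  refine ⟨by simp, ?_⟩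
  intro A Q hB hA hQ
  exfalso
  have := congrArg List.length hB
  rw [List.length_append, List.length_singleton] at this
  have h1 := List.length_pos_iff.2 hA
  have h2 := List.length_pos_iff.2 hQ
  omega

theorem goodBlock_of {B : List Edge} (hne : B ≠ []) (hs : Small B)
    (h : ∀ A Q, B = A ++ Q → A ≠ [] → Q ≠ [] →
      (∀ e ∈ A, dir B < e.2) ∨ (∀ e ∈ Q, e.2 < dir B)) : GoodBlock B := by
  refine ⟨hne, ?_⟩
  intro A Q hB hA hQ
  have hd := dir_mem hs hne (lo := -(1 / 100)) (hi := 1 / 100)
    (fun e he => (abs_le.1 (hs e he).2).1) (fun e he => (abs_le.1 (hs e he).2).2)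
  rcases h A Q hB hA hQ with h1 | h1
  · apply ht_pos _ hA
    intro e he
    have h2 := hs e (by rw [hB]; exact List.mem_append_left _ he)
    have h3 := abs_le.1 h2.2
    exact ⟨h2.1, h1 e he, by linarith [h3.2, hd.1]⟩
  · have h4 : ht (dir B) Q < 0 := by
      apply ht_neg _ hQ
      intro e he
      have h2 := hs e (by rw [hB]; exact List.mem_append_right _ he)
      have h3 := abs_le.1 h2.2
      exact ⟨h2.1, h1 e he, by linarith [h3.1, hd.2]⟩
    have h5 := ht_dir hs
    rw [show ht (dir B) B = ht (dir B) (A ++ Q) by rw [← hB], ht_append] at h5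
    linarith

theorem Coarse.good_vblock {J : ℕ} {f : ℕ → Bool} {st : St} (h : P.Coarse J f st) {j : ℕ}
    (hj1 : 1 ≤ j) (hj : j < J) (hf : f j = false) : GoodBlock (P.vblock st j) := by
  have hJM := h.hJ
  have hR := R_pos j
  have hτ := P.τ_pos'
  have hw := abs_le.1 (h.hw1 j hj)
  have ht := abs_le.1 (h.ht j hj1 (by omega))
  have htn : tnom J f j = R j / 2 := by unfold tnom; simp [hf]
  rw [htn] at ht
  have hs := h.vblock_small (j := j) hj1 (by omega)
  refine goodBlock_of (by unfold vblock; simp) hs ?_
  intro A Q hB hA hQ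
  left
  have hlt : dir (P.vblock st j) < P.τ * st.vw j := by
    apply dir_lt hs
    · intro e he
      unfold vblock w t at he
      simp only [List.mem_cons, List.not_mem_nil, or_false] at he
      rcases he with rfl | rfl
      · exact le_rfl
      · exact mul_le_mul_of_nonneg_left (by linarith [hw.1, ht.2]) hτ.le
    · refine ⟨P.t st j, by unfold vblock; simp, ?_⟩
      exact mul_lt_mul_of_pos_left (by linarith [hw.1, ht.2]) hτ
  have hA1 : A = [P.w st j] := by
    match A, hA with
    | [a], _ =>
      unfold vblock at hB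
      simp only [List.cons_append, List.nil_append, List.cons.injEq] at hB
      rw [hB.1]
    | a :: b :: A', _ =>
      exfalso
      have := congrArg List.length hB
      have h2 := List.length_pos_iff.2 hQ
      simp only [vblock, List.length_cons, List.length_append, List.length_nil] at this
      omega
  intro e he
  rw [hA1, List.mem_singleton] at he
  rw [he]
  exact hlt

theorem Coarse.good_mblock {J : ℕ} {f : ℕ → Bool} {st : St} (h : P.Coarse J f st)
    (hJ : 1 ≤ J) : GoodBlock (P.mblock J f st) := by
  have hJM := h.hJ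
  have hR := R_pos (J - 1)
  have hRJ : R J = 4 * R (J - 1) := by
    rw [← R_succ, show J - 1 + 1 = J by omega]
  have hτ := P.τ_pos'
  have hw := abs_le.1 (h.hw1 (J - 1) (by omega))
  have hw2 := abs_le.1 h.hw2
  have hd := h.dir_mblock hJ
  refine goodBlock_of (mblock_ne J f st) h.mblock_small ?_
  intro A Q hB hA hQ
  -- the elements after `seg (J-1)` are below the direction
  have hbelow : ∀ e ∈ [P.w st J] ++ (if f J then P.tl st J else []),
      e.2 < dir (P.mblock J f st) := by
    intro e he
    refine lt_of_lt_of_le ?_ hd.1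
    rcases List.mem_append.1 he with he | he
    · rw [List.mem_singleton] at he
      rw [he]
      exact mul_lt_mul_of_pos_left (by linarith [hw2.2]) hτ
    · split_ifs at he with hf
      · unfold tl at he
        rw [if_neg (by omega), List.mem_singleton] at he
        rw [he]
        have ht := abs_le.1 (h.ht J hJ hJM)
        have htn : tnom J f J = -(R J / 2) := by
          unfold tnom; rw [if_pos hf, if_neg (lt_irrefl _), if_pos rfl]
        rw [htn] at ht
        exact mul_lt_mul_of_pos_left (by linarith [ht.2]) hτ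
      · simp at he
  have hmb : P.mblock J f st =
      P.w st (J - 1) :: (P.tl st (J - 1) ++ ([P.w st J] ++ (if f J then P.tl st J else []))) := by
    unfold mblock seg; simp
  match A, hA with
  | [a], _ =>
    left
    rw [hmb] at hB
    simp only [List.cons_append, List.nil_append, List.cons.injEq] at hB
    intro e he
    rw [List.mem_singleton] at he
    rw [he, ← hB.1]
    refine lt_of_le_of_lt hd.2 ?_
    exact mul_lt_mul_of_pos_left (by linarith [hw.1]) hτ
  | a :: b :: A', _ =>
    right
    intro e he
    apply hbelow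
    rw [hmb] at hB
    simp only [List.cons_append, List.cons.injEq] at hB
    have hB : P.tl st (J - 1) ++ ([P.w st J] ++ if f J = true then P.tl st J else []) =
        (b :: A') ++ Q := hB.2
    have hlen : (P.tl st (J - 1)).length ≤ 1 := by unfold tl; split_ifs <;> simp
    rcases List.append_eq_append_iff.1 hB with ⟨a', h1, h2⟩ | ⟨c', h1, h2⟩
    · rw [h2]; exact List.mem_append_right _ he
    · have := congrArg List.length h1
      simp only [List.length_cons, List.length_append] at this
      have hc : c' = [] := List.length_eq_zero_iff.1 (by omega)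
      rw [hc, List.nil_append] at h2
      rw [← h2]; exact he

/-! ### decompositions -/

/-- the indices after `j` -/
def after (m j : ℕ) : List ℕ := (List.range (m - j)).map fun i => j + 1 + i

theorem range_split {m j : ℕ} (h : j ≤ m) :
    List.range (m + 1) = List.range j ++ (j :: after m j) := by
  have h1 : m + 1 = (j + 1) + (m - j) := by omega
  rw [h1, List.range_add, List.range_succ, List.append_assoc]
  rfl

theorem mem_after {m j i : ℕ} : i ∈ after m j ↔ j < i ∧ i ≤ m := by
  unfold after
  rw [List.mem_map]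
  constructor
  · rintro ⟨k, hk, rfl⟩
    have := List.mem_range.1 hk
    omega
  · rintro ⟨h1, h2⟩
    exact ⟨i - (j + 1), List.mem_range.2 (by omega), by omega⟩

theorem after_cons {m j : ℕ} (h : j < m) : after m j = (j + 1) :: after m (j + 1) := by
  have h1 := range_split (m := m) (j := j) h.le
  have h2 := range_split (m := m) (j := j + 1) h
  rw [h1, List.range_succ, List.append_assoc, List.append_cancel_left_eq] at h2
  simpa using h2

theorem flatMap_seg_lt {J : ℕ} {f : ℕ → Bool} {st : St} {j : ℕ} (hj : j + 1 ≤ J) :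
    ((List.range j).flatMap (P.blk J f st)).flatten = (List.range j).flatMap (P.seg st) := by
  rw [flatten_flatMap']
  apply List.flatMap_congr
  intro i hi
  have := List.mem_range.1 hi
  exact blk_flatten_of_ne (by omega) (by omega)

theorem flip_edge {L v d : ℝ} (hτ : P.τ ≠ 0) : refl d (L, P.τ * v) = (L, P.τ * (2 * (d / P.τ) - v)) := by
  unfold refl
  simp only
  congr 1
  field_simp

/-- decomposition at a small pocket -/
theorem Coarse.decompV {J : ℕ} {f : ℕ → Bool} {st : St} (h : P.Coarse J f st) {j : ℕ}
    (hj : 1 ≤ j) (hjJ : j + 2 ≤ J) (hf : f j = false) :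
    ∃ bs₁ bs₂, P.blks J f st = bs₁ ++ [P.vblock st j] ++ bs₂ ∧
      bs₁.flatten ++ flipBlock (P.vblock st j) ++ bs₂.flatten = P.chain (P.stV st j) := by
  have hJM := h.hJ
  have hτ := P.τ_pos'.ne'
  refine ⟨P.pre.map (fun e => [e]) ++ (List.range j).flatMap (P.blk J f st),
    (after P.M j).flatMap (P.blk J f st), ?_, ?_⟩
  · unfold blks
    rw [range_split (m := P.M) (j := j) (by omega), List.flatMap_append, List.flatMap_cons]
    have : P.blk J f st j = [P.vblock st j] := by
      unfold blk
      rw [if_pos (by omega), if_neg (by omega), if_neg (by simp [hf])]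
    rw [this]
    simp
  · have hflat := blks_flatten (P := P) (f := f) (st := st) (J := J) (by omega) hJM
    unfold blks chain at hflat
    rw [range_split (m := P.M) (j := j) (by omega), List.flatMap_append, List.flatMap_cons,
      List.flatMap_append, List.flatMap_cons] at hflat
    have hb : P.blk J f st j = [P.vblock st j] := by
      unfold blk
      rw [if_pos (by omega), if_neg (by omega), if_neg (by simp [hf])]
    have hseg : P.seg st j = P.vblock st j := by
      unfold seg tl vblock; rw [if_neg (by omega)]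
    simp only [List.flatten_cons, List.flatten_append, List.singleton_append, flatten_single,
      flatMap_seg_lt (P := P) (f := f) (st := st) (show j + 1 ≤ J by omega), hb, hseg,
      List.append_cancel_left_eq] at hflat
    simp only [List.flatten_append, flatten_single,
      flatMap_seg_lt (P := P) (f := f) (st := st) (show j + 1 ≤ J by omega), hflat]
    unfold chain
    rw [range_split (m := P.M) (j := j) (by omega), List.flatMap_append, List.flatMap_cons]
    have e1 : (List.range j).flatMap (P.seg (P.stV st j)) = (List.range j).flatMap (P.seg st) := by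
      apply List.flatMap_congr
      intro i hi
      have := List.mem_range.1 hi
      unfold seg tl w t stV
      simp only [Function.update_of_ne (show i ≠ j by omega)]
    have e2 : (after P.M j).flatMap (P.seg (P.stV st j)) = (after P.M j).flatMap (P.seg st) := by
      apply List.flatMap_congr
      intro i hi
      have := mem_after.1 hi
      unfold seg tl w t stV
      simp only [Function.update_of_ne (show i ≠ j by omega)]
    have e3 : P.seg (P.stV st j) j = flipBlock (P.vblock st j) := by
      have hsV : P.sV st j = dir (P.vblock st j) / P.τ := rfl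
      unfold seg tl flipBlock
      rw [if_neg (by omega)]
      unfold vblock w t stV
      simp only [Function.update_self, List.map_cons, List.map_nil, hsV]
      unfold vblock w t
      rw [flip_edge hτ, flip_edge hτ]
    rw [e1, e2, e3]
    simp only [List.append_assoc]

/-- decomposition at the big pocket -/
theorem Coarse.decompF {J : ℕ} {f : ℕ → Bool} {st : St} (h : P.Coarse J f st) (hJ : 1 ≤ J) :
    ∃ bs₁ bs₂, P.blks J f st = bs₁ ++ [P.mblock J f st] ++ bs₂ ∧
      bs₁.flatten ++ flipBlock (P.mblock J f st) ++ bs₂.flatten = P.chain (P.stF J f st) := by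
  have hJM := h.hJ
  have hτ := P.τ_pos'.ne'
  refine ⟨P.pre.map (fun e => [e]) ++ (List.range (J - 1)).flatMap (P.blk J f st),
    (after P.M (J - 1)).flatMap (P.blk J f st), ?_, ?_⟩
  · unfold blks
    rw [range_split (m := P.M) (j := J - 1) (by omega), List.flatMap_append, List.flatMap_cons]
    have : P.blk J f st (J - 1) = [P.mblock J f st] := by
      unfold blk
      rw [if_neg (by omega), if_pos (by omega)]
    rw [this]
    simp
  · have e0 : ((after P.M (J - 1)).flatMap (P.blk J f st)).flatten =
        (P.blk J f st J).flatten ++ (after P.M J).flatMap (P.seg st) := by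
      rw [after_cons (m := P.M) (j := J - 1) (by omega), show J - 1 + 1 = J by omega,
        List.flatMap_cons, List.flatten_append, flatten_flatMap']
      congr 1
      apply List.flatMap_congr
      intro i hi
      have := mem_after.1 hi
      exact blk_flatten_of_ne (by omega) (by omega)
    rw [List.flatten_append, flatten_single,
      flatMap_seg_lt (P := P) (f := f) (st := st) (show J - 1 + 1 ≤ J by omega), e0]
    unfold chain
    rw [range_split (m := P.M) (j := J - 1) (by omega), List.flatMap_append, List.flatMap_cons,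
      after_cons (m := P.M) (j := J - 1) (by omega), show J - 1 + 1 = J by omega,
      List.flatMap_cons]
    have e1 : (List.range (J - 1)).flatMap (P.seg (P.stF J f st)) =
        (List.range (J - 1)).flatMap (P.seg st) := by
      apply List.flatMap_congr
      intro i hi
      have := List.mem_range.1 hi
      unfold seg tl w t stF
      simp only [show i ≠ J - 1 by omega, show i ≠ J by omega, false_or, false_and, if_false]
    have e2 : (after P.M J).flatMap (P.seg (P.stF J f st)) =
        (after P.M J).flatMap (P.seg st) := by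
      apply List.flatMap_congr
      intro i hi
      have := mem_after.1 hi
      unfold seg tl w t stF
      simp only [show i ≠ J - 1 by omega, show i ≠ J by omega, false_or, false_and, if_false]
    have e3 : P.seg (P.stF J f st) (J - 1) ++ P.seg (P.stF J f st) J =
        flipBlock (P.mblock J f st) ++ (P.blk J f st J).flatten := by
      have hsF : P.sF J f st = dir (P.mblock J f st) / P.τ := rfl
      have hbJ : (P.blk J f st J).flatten = if f J then [] else P.tl st J := by
        have hJ0 : ¬ J = 0 := by omega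
        unfold blk tl
        rw [if_neg (by omega : ¬ J + 1 < J), if_neg (by omega : ¬ J + 1 = J), if_pos rfl, if_neg hJ0]
        split_ifs <;> simp
      rw [hbJ]
      unfold flipBlock
      generalize hd : dir (P.mblock J f st) = d at hsF
      unfold mblock seg tl w t stF
      rw [hsF]
      have hJ0 : J ≠ 0 := by omega
      by_cases h0 : J - 1 = 0 <;> cases hf : f J <;>
        simp [h0, hJ0, flip_edge hτ, show J ≠ J - 1 by omega]
    rw [e1, e2]
    simp only [List.append_assoc]
    rw [List.append_cancel_left_eq, List.append_cancel_left_eq, ← List.append_assoc,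
      ← List.append_assoc, e3]

theorem Coarse.good {J : ℕ} {f : ℕ → Bool} {st : St} (h : P.Coarse J f st) (hJ : 1 ≤ J) :
    ∀ b ∈ P.blks J f st, GoodBlock b := by
  have hJM := h.hJ
  intro b hb
  unfold blks at hb
  simp only [List.mem_append, List.mem_map, List.mem_flatMap, List.mem_range] at hb
  rcases hb with ⟨e, he, rfl⟩ | ⟨j, hj, hb⟩
  · exact goodBlock_single _
  · unfold blk at hb
    split_ifs at hb with h1 h2 h3 h4 h5 h6
    all_goals simp only [List.mem_cons, List.not_mem_nil, or_false] at hb
    · rw [hb]; exact goodBlock_single _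
    · rcases hb with rfl | rfl <;> exact goodBlock_single _
    · rw [hb]; exact h.good_vblock (by omega) (by omega) (by simpa using h3)
    · rw [hb]; exact h.good_mblock hJ
    · rw [hb]; exact goodBlock_single _
    · rcases hb with rfl | rfl <;> exact goodBlock_single _

theorem vblock_length (st : St) (j : ℕ) : (P.vblock st j).length = 2 := rfl

theorem mblock_length (J : ℕ) (f : ℕ → Bool) (st : St) : 2 ≤ (P.mblock J f st).length := by
  unfold mblock seg; simp; omega

theorem nodup_split {α : Type} {l a b c d : List α} {x : α} (hl : l.Nodup)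
    (h1 : l = a ++ [x] ++ b) (h2 : l = c ++ [x] ++ d) : a = c ∧ b = d := by
  rw [h1, List.append_assoc, List.append_assoc] at h2
  rw [h1, List.append_assoc] at hl
  rcases List.append_eq_append_iff.1 h2 with ⟨a', h3, h4⟩ | ⟨c', h3, h4⟩
  · match a' with
    | [] => simp at h3 h4; exact ⟨h3.symm, h4⟩
    | y :: a'' =>
      exfalso
      simp only [List.cons_append, List.nil_append, List.cons.injEq] at h4
      rw [h4.2] at hl
      have h5 := (List.nodup_append.1 hl).2.1
      simp only [List.cons_append, List.nil_append, List.nodup_cons] at h5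
      exact h5.1 (by simp)
  · match c' with
    | [] => simp at h3 h4; exact ⟨h3, h4.symm⟩
    | y :: c'' =>
      exfalso
      simp only [List.cons_append, List.nil_append, List.cons.injEq] at h4
      rw [h3, List.append_assoc] at hl
      have h5 := (List.nodup_append.1 hl).2.1
      rw [List.cons_append, List.nodup_cons, ← h4.1] at h5
      exact h5.1 (by simp)

/-! ### the end of the macro phase -/

theorem Coarse.zero {f : ℕ → Bool} {st : St} (h : P.Coarse 0 f st) :
    ∃ rest, P.chain st = P.pre ++ (P.Lw 0, P.τ * st.vw 0) :: rest ∧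
      (P.chain st).length = P.N ∧ Sorted rest ∧
      ∀ e ∈ rest, 0 < e.1 ∧ e.1 ≤ 2 ∧ P.τ * (3 / 2) ≤ e.2 ∧ e.2 ≤ 1 / 100 := by
  have hτ := P.τ_pos'
  have hch : P.chain st = P.pre ++
      (P.Lw 0, P.τ * st.vw 0) :: (after P.M 0).flatMap (P.seg st) := by
    unfold chain
    rw [range_split (m := P.M) (j := 0) (Nat.zero_le _)]
    simp [seg, tl, w]
  have hv : ∀ j, 1 ≤ j → j ≤ P.M → R (j - 1) - 1 / 64 ≤ st.vw j ∧ st.vw j ≤ R (j - 1) + 1 / 64 ∧
      2 * R (j - 1) - 1 / 64 ≤ st.vt j ∧ st.vt j ≤ 3 * R (j - 1) + 1 / 64 := by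
    intro j h1 h2
    have hw := abs_le.1 (h.hw3 j h1 h2)
    have ht := abs_le.1 (h.ht j h1 h2)
    have hRj : R j = 4 * R (j - 1) := by
      rw [← R_succ, show j - 1 + 1 = j by omega]
    have hR := R_pos j
    have htn : R j / 2 ≤ tnom 0 f j ∧ tnom 0 f j ≤ 3 / 4 * R j := by
      unfold tnom
      rw [if_neg (show ¬ j < 0 by omega), if_neg (show ¬ j = 0 by omega)]
      split_ifs <;> constructor <;> linarith
    refine ⟨by linarith [hw.1], by linarith [hw.2], by linarith [ht.1, htn.1],
      by linarith [ht.2, htn.2]⟩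
  have hseg : ∀ j, 1 ≤ j → P.seg st j = [P.w st j, P.t st j] := by
    intro j h1
    unfold seg tl
    rw [if_neg (by omega)]
  refine ⟨_, hch, chain_length st, ?_, ?_⟩
  · unfold Sorted
    rw [List.pairwise_flatMap]
    constructor
    · intro j hj
      have hj := mem_after.1 hj
      have hv := hv j (by omega) hj.2
      have hR := R_pos (j - 1)
      rw [hseg j (by omega)]
      simp only [List.pairwise_cons, List.mem_singleton, forall_eq, List.not_mem_nil,
        false_imp_iff, implies_true, List.Pairwise.nil, and_true]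
      exact mul_lt_mul_of_pos_left (by linarith [hv.2.1, hv.2.2.1]) hτ
    · have : (after P.M 0).Pairwise fun a b => a < b := by
        unfold after
        rw [List.pairwise_map]
        exact (List.pairwise_lt_range (n := P.M - 0)).imp fun hab => by omega
      refine (this.imp_of_mem ?_)
      intro i j hi hj hij x hx y hy
      have hi := mem_after.1 hi
      have hj := mem_after.1 hj
      have hvi := hv i (by omega) hi.2
      have hvj := hv j (by omega) hj.2
      have hRi := R_pos (i - 1)
      have hR := R_lt (i := i - 1) (j := j - 1) (by omega)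
      rw [hseg i (by omega)] at hx
      rw [hseg j (by omega)] at hy
      simp only [List.mem_cons, List.not_mem_nil, or_false] at hx hy
      rcases hx with rfl | rfl <;> rcases hy with rfl | rfl <;>
        exact mul_lt_mul_of_pos_left
          (by linarith [hvi.2.1, hvi.2.2.2, hvj.1, hvj.2.2.1]) hτ
  · intro e he
    have hmem : e ∈ P.chain st := by rw [hch]; simp [he]
    have hb := h.ok.2.2 e hmem
    refine ⟨hb.1, hb.2.1, ?_, (abs_le.1 hb.2.2).2⟩
    obtain ⟨j, hj, he⟩ := List.mem_flatMap.1 he
    have hj := mem_after.1 hj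
    have hv := hv j (by omega) hj.2
    have hR := R_pos (j - 1)
    rw [hseg j (by omega)] at he
    simp only [List.mem_cons, List.not_mem_nil, or_false] at he
    rcases he with rfl | rfl <;>
      exact mul_le_mul_of_nonneg_left (by linarith [hv.1, hv.2.2.1]) hτ.le

end Par

end Pool.Agent.Helper20.Flip.Sh
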