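import Pool.Agent.Helper20.Flip.Sh.Par

set_option autoImplicit false

namespace Pool.Agent.Helper20.Flip.Sh

namespace Par

variable (P : Par)

/-! ### numerical facts on the parameters -/

theorem τ_pos' : 0 < P.τ := by unfold τ; positivity
theorem η_pos' : 0 < P.η := by unfold η; positivity

theorem R_pos (j : ℕ) : 2 ≤ R j := by
  unfold R
  have : (1 : ℝ) ≤ 4 ^ j := one_le_pow₀ (by norm_num)
  linarith

theorem R_succ (j : ℕ) : R (j + 1) = 4 * R j := by unfold R; ring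

theorem R_lt {i j : ℕ} (h : i < j) : 4 * R i ≤ R j := by
  obtain ⟨k, rfl⟩ := Nat.exists_eq_add_of_lt h
  unfold R
  have : (1 : ℝ) ≤ 4 ^ k := one_le_pow₀ (by norm_num)
  have h4 : (0 : ℝ) < 4 ^ i := by positivity
  rw [show i + k + 1 = (i + 1) + k by ring, pow_add, pow_succ]
  nlinarith

theorem R_mono {i j : ℕ} (h : i ≤ j) : R i ≤ R j := by
  rcases Nat.lt_or_ge i j with h' | h'
  · have := R_lt h'; have := R_pos i; linarith
  · have : i = j := le_antisymm h h'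
    rw [this]

theorem R_eight {j : ℕ} (h : 1 ≤ j) : 8 ≤ R j := by
  have := R_lt (i := 0) (j := j) (by omega)
  have := R_pos 0
  linarith

/-- everything is tiny compared with `τ` -/
theorem τ_R_M : P.τ * (4 * R P.M) ≤ 1 / 2 ^ 50 := by
  unfold τ R M
  have e : (4 : ℝ) * (2 * 4 ^ (P.n + 2)) = 2 ^ (2 * P.n + 7) := by
    rw [show (4 : ℝ) = 2 ^ 2 by norm_num, ← pow_mul]; ring
  rw [e, one_div_mul_eq_div, div_le_div_iff₀ (by positivity) (by positivity), one_mul, ← pow_add]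
  apply pow_le_pow_right₀ (by norm_num)
  have := P.hg; have := P.hh; omega

theorem τ_R {j : ℕ} (h : j ≤ P.M) : P.τ * (4 * R j) ≤ 1 / 2 ^ 50 :=
  le_trans (mul_le_mul_of_nonneg_left (by have := R_mono h; linarith) P.τ_pos'.le) P.τ_R_M

theorem τ_small : P.τ ≤ 1 / 2 ^ 50 := by
  have h := P.τ_R_M
  have := R_pos P.M
  have := P.τ_pos'
  nlinarith

/-- the cubes of the angles are negligible -/
theorem τ_cube : 8 * (P.τ * (2 * R P.M)) ^ 3 ≤ P.τ * (1 / 2 ^ 50) := by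
  have h0 := P.τ_pos'
  have hx : 0 ≤ P.τ * (2 * R P.M) := by have := R_pos P.M; positivity
  have hx1 : P.τ * (2 * R P.M) ≤ 1 / 2 ^ 50 := by
    have := P.τ_R_M; have := R_pos P.M; nlinarith
  -- τ² (2 R)^3 ≤ ...
  have key : (P.τ * (2 * R P.M)) ^ 3 ≤ P.τ * (1 / 2 ^ 54) := by
    have e : (P.τ * (2 * R P.M)) ^ 3 = P.τ * (P.τ ^ 2 * (2 * R P.M) ^ 3) := by ring
    rw [e]
    apply mul_le_mul_of_nonneg_left _ h0.le
    unfold τ R M
    have e : (2 : ℝ) * (2 * 4 ^ (P.n + 2)) = 2 ^ (2 * P.n + 6) := by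
      rw [show (4 : ℝ) = 2 ^ 2 by norm_num, ← pow_mul]; ring
    rw [e, one_div, inv_pow, ← pow_mul, ← pow_mul, inv_mul_eq_div,
      div_le_div_iff₀ (by positivity) (by positivity), one_mul, ← pow_add]
    apply pow_le_pow_right₀ (by norm_num)
    have := P.hg; have := P.hh; omega
  calc 8 * (P.τ * (2 * R P.M)) ^ 3 ≤ 8 * (P.τ * (1 / 2 ^ 54)) := by linarith
    _ ≤ P.τ * (1 / 2 ^ 50) := by nlinarith

theorem a_lt (j : ℕ) (hj : 1 ≤ j) : (P.a j : ℝ) ≤ 2 ^ P.s := by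
  by_cases h : j ≤ P.n
  · have h1 : P.a j ≤ ∑ i ∈ Finset.Icc 1 P.n, P.a i :=
      Finset.single_le_sum (f := P.a) (fun _ _ => Nat.zero_le _) (Finset.mem_Icc.2 ⟨hj, h⟩)
    have h2 : P.a j ≤ 2 ^ P.s := (h1.trans_lt P.hs).le
    exact_mod_cast h2
  · rw [P.ha' j (by omega)]
    have : (1 : ℝ) ≤ 2 ^ P.s := one_le_pow₀ (by norm_num)
    simpa using this

theorem ε_pos (j : ℕ) : 0 < P.ε j := by
  unfold ε
  have h1 := P.η_pos'
  have h2 : (0 : ℝ) < P.a j := by exact_mod_cast P.ha j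
  positivity

theorem ε_small {j : ℕ} (hj : 1 ≤ j) : P.ε j ≤ 1 / 2 ^ 50 := by
  unfold ε η
  have h1 := P.a_lt j hj
  have h4 : (1 : ℝ) ≤ 4 ^ j := one_le_pow₀ (by norm_num)
  have h2 : 4 * (1 / 2 ^ P.h) * (P.a j : ℝ) ≤ 1 / 2 ^ 50 := by
    calc 4 * (1 / 2 ^ P.h) * (P.a j : ℝ) ≤ 4 * (1 / 2 ^ P.h) * 2 ^ P.s := by
          apply mul_le_mul_of_nonneg_left h1; positivity
      _ = 2 ^ (P.s + 2) / 2 ^ P.h := by rw [pow_add]; ring
      _ ≤ 1 / 2 ^ 50 := by
          rw [div_le_div_iff₀ (by positivity) (by positivity), one_mul, ← pow_add]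
          apply pow_le_pow_right₀ (by norm_num)
          have := P.hh; omega
  exact le_trans (div_le_self (by positivity) h4) h2

/-- the length of an edge of slope `σ` -/
theorem toEdge_len {x σ : ℝ} (hx : 0 < x) (hσ : |σ| ≤ 1 / 10) :
    x ≤ (toEdge (x, x * σ)).1 ∧ (toEdge (x, x * σ)).1 ≤ x * (101 / 100) := by
  unfold toEdge
  simp only
  constructor
  · apply Real.le_sqrt_of_sq_le; nlinarith [sq_nonneg (x * σ)]
  · rw [Real.sqrt_le_left (by positivity)]
    have : σ ^ 2 ≤ 1 / 100 := by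
      rw [← sq_abs]; nlinarith [abs_nonneg σ]
    nlinarith [sq_nonneg x]

theorem Lt_len {j : ℕ} (hj : 1 ≤ j) (hjM : j ≤ P.M) : 0 < P.Lt j ∧ P.Lt j ≤ 1 / 2 ^ 49 := by
  have h := toEdge_len (P.ε_pos j) (σ := P.τ * (R j / 2)) (by
    rw [abs_of_nonneg (by have := R_pos j; have := P.τ_pos'; positivity)]
    have := P.τ_R hjM; have := R_pos j; have := P.τ_pos'
    nlinarith)
  have h1 := P.ε_pos j
  have h2 := P.ε_small hj
  unfold Lt
  constructor
  · linarith [h.1]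
  · refine le_trans h.2 ?_
    have : P.ε j * (101 / 100) ≤ 1 / 2 ^ 50 * (101 / 100) := by linarith
    refine le_trans this ?_
    norm_num

theorem ηT_le : 3 * P.η * P.T ≤ 1 := by
  unfold η
  have h1 : (P.T : ℝ) ≤ 2 ^ P.s := by exact_mod_cast P.hT.le
  have e : 3 * (1 / 2 ^ P.h) * (P.T : ℝ) = 3 * P.T / 2 ^ P.h := by ring
  rw [e, div_le_one (by positivity)]
  calc 3 * (P.T : ℝ) ≤ 2 ^ 2 * 2 ^ P.s := by nlinarith
    _ = 2 ^ (2 + P.s) := by rw [pow_add]
    _ ≤ 2 ^ P.h := pow_le_pow_right₀ (by norm_num) (by have := P.hh; omega)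

theorem Lw_len {j : ℕ} (hjM : j ≤ P.M) : 1 ≤ P.Lw j ∧ P.Lw j ≤ 101 / 100 := by
  have h0 := P.η_pos'
  have ht := P.τ_pos'
  have hT := P.ηT_le
  have hT0 : 0 ≤ 3 * P.η * P.T := by positivity
  have h := toEdge_len (x := 1) (σ := P.τ * (if j = P.n + 2 then -(3 * P.η * P.T) else R j))
    one_pos (by
    split_ifs with h
    · rw [abs_mul, abs_of_pos ht, abs_neg, abs_of_nonneg hT0]
      have := P.τ_small
      nlinarith
    · rw [abs_of_nonneg (by have := R_pos j; positivity)]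
      have := P.τ_R hjM; have := R_pos j
      nlinarith)
  unfold Lw
  rw [one_mul] at h
  constructor
  · exact h.1
  · linarith [h.2]

theorem δ_pos : 0 < P.δ := by unfold δ; have := P.η_pos'; positivity

theorem δ_small : P.δ ≤ 1 / 2 ^ 50 := by
  unfold δ η
  rw [one_div_mul_eq_div, div_le_div_iff₀ (by positivity) (by positivity), one_mul, ← pow_add]
  apply pow_le_pow_right₀ (by norm_num)
  have := P.hh; omega

theorem toEdge_angle {x σ : ℝ} (hx : 0 < x) : (toEdge (x, x * σ)).2 = Real.arctan σ := by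
  unfold toEdge
  simp only
  rw [mul_div_cancel_left₀ _ hx.ne']

theorem arctan_le_of_nonneg {x : ℝ} (hx : 0 ≤ x) : Real.arctan x ≤ x := by
  have h1 := Real.le_tan (Real.arctan_nonneg.2 hx) (Real.arctan_lt_pi_div_two x)
  rwa [Real.tan_arctan] at h1

theorem abs_arctan_le (x : ℝ) : |Real.arctan x| ≤ |x| := by
  rcases le_total 0 x with h | h
  · rw [abs_of_nonneg h, abs_of_nonneg (Real.arctan_nonneg.2 h)]
    exact arctan_le_of_nonneg h
  · have h1 := arctan_le_of_nonneg (x := -x) (by linarith)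
    rw [Real.arctan_neg] at h1
    rw [abs_of_nonpos h, abs_of_nonpos (by linarith [Real.arctan_nonneg.2 (neg_nonneg.2 h), Real.arctan_neg x])]
    exact h1

theorem pre_eq : P.pre =
    [toEdge (1, 1 * (P.τ * P.vZ)), toEdge (P.η ^ 3, P.η ^ 3 * (P.τ * (1 / 128))),
      toEdge (1, 1 * (P.τ * vA)), toEdge (1 / 4, 1 / 4 * (P.τ * P.vB)),
      toEdge (P.η ^ 3, P.η ^ 3 * (P.τ * (315 / 512)))] := by
  unfold pre preV
  simp only [List.map_cons, List.map_nil, one_mul]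

theorem η_le_one : P.η ≤ 1 := by
  unfold η; rw [div_le_one (by positivity)]; exact one_le_pow₀ (by norm_num)

theorem edge_facts {x v : ℝ} (hx : 0 < x) (hx1 : x ≤ 1) (hv : |v| ≤ 5 / 8) :
    0 < (toEdge (x, x * (P.τ * v))).1 ∧ (toEdge (x, x * (P.τ * v))).1 ≤ 2 ∧
      |(toEdge (x, x * (P.τ * v))).2| ≤ P.τ * (5 / 8) ∧
      (toEdge (x, x * (P.τ * v))).2 = Real.arctan (P.τ * v) := by
  have ht := P.τ_pos'
  have hts := P.τ_small
  have h1 : |P.τ * v| ≤ P.τ * (5 / 8) := by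
    rw [abs_mul, abs_of_pos ht]
    exact mul_le_mul_of_nonneg_left hv ht.le
  have h2 := toEdge_len hx (σ := P.τ * v) (by nlinarith)
  refine ⟨by linarith [h2.1], by linarith [h2.2], ?_, toEdge_angle hx⟩
  rw [toEdge_angle hx]
  exact (abs_arctan_le _).trans h1

theorem vZ_abs : |P.vZ| ≤ 5 / 8 := by
  have h1 := P.δ_pos
  have h2 := P.δ_small
  unfold vZ
  rw [abs_le]; constructor <;> linarith

theorem vB_abs : |P.vB| ≤ 5 / 8 := by
  have h1 := P.δ_pos
  have h2 := P.δ_small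
  unfold vB
  rw [abs_le]; constructor <;> linarith

theorem pre_mem {e : Edge} (he : e ∈ P.pre) : 0 < e.1 ∧ e.1 ≤ 2 ∧ |e.2| ≤ P.τ * (5 / 8) := by
  have h0 := P.η_pos'
  have h1 := P.η_le_one
  have h3 : P.η ^ 3 ≤ 1 := pow_le_one₀ h0.le h1
  have h4 : 0 < P.η ^ 3 := by positivity
  rw [pre_eq] at he
  simp only [List.mem_cons, List.not_mem_nil, or_false] at he
  have key : ∀ {x v : ℝ}, 0 < x → x ≤ 1 → |v| ≤ 5 / 8 → e = toEdge (x, x * (P.τ * v)) →
      0 < e.1 ∧ e.1 ≤ 2 ∧ |e.2| ≤ P.τ * (5 / 8) := by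
    intro x v hx hx1 hv he
    have := P.edge_facts hx hx1 hv
    rw [he]; exact ⟨this.1, this.2.1, this.2.2.1⟩
  rcases he with he | he | he | he | he
  · exact key one_pos le_rfl P.vZ_abs he
  · exact key h4 h3 (by norm_num [abs_le]) he
  · exact key one_pos le_rfl (by unfold vA; norm_num [abs_le]) he
  · exact key (by norm_num) (by norm_num) P.vB_abs he
  · exact key h4 h3 (by norm_num [abs_le]) he

theorem pre_pairwise : P.pre.Pairwise fun e e' => e.2 < e'.2 := by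
  have h0 := P.η_pos'
  have h4 : 0 < P.η ^ 3 := by positivity
  have ht := P.τ_pos'
  have h1 := P.δ_pos
  have h2 := P.δ_small
  have q : (0 : ℝ) < 1 / 4 := by norm_num
  rw [pre_eq]
  have key : ∀ {u v : ℝ}, u < v → Real.arctan (P.τ * u) < Real.arctan (P.τ * v) :=
    fun huv => Real.arctan_strictMono (mul_lt_mul_of_pos_left huv ht)
  simp only [List.pairwise_cons, List.mem_cons, List.not_mem_nil, or_false, forall_eq_or_imp,
    forall_eq, false_imp_iff, implies_true, List.Pairwise.nil, and_true,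
    toEdge_angle (one_pos (α := ℝ)), toEdge_angle h4, toEdge_angle q]
  unfold vZ vA vB
  refine ⟨⟨?_, ?_, ?_, ?_⟩, ⟨?_, ?_, ?_⟩, ⟨?_, ?_⟩, ?_⟩ <;> apply key <;> linarith

theorem pre_length : P.pre.length = 5 := by
  rw [pre_eq]; rfl

end Par

end Pool.Agent.Helper20.Flip.Sh
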